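import Pool.Agent.Lib.MP_148e9f_nt.Pair

/-!
Two different pairs of components: each of the four parts is large.
-/

set_option autoImplicit false

namespace Pool.Agent.Lib.MP_148e9f_nt

theorem fin {x N C : ℤ} (m s : ℕ) (hx : 3 ≤ x) (h : N ≤ C * x ^ m) (hC : C ≤ 3 ^ s)
    (hm : s + m ≤ 150) : N ≤ x ^ 150 :=
  h.trans <| (mul_le_mul_of_nonneg_right (hC.trans (pow_le_pow_left₀ (by norm_num) hx s))
    (by positivity)).trans <| by rw [← pow_add]; exact pow_le_pow_right₀ (by omega) hm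

theorem pw {u c x : ℤ} (e t : ℕ) (h0 : 0 ≤ u) (h : u ≤ c * x ^ e) : u ^ t ≤ c ^ t * x ^ (e * t) := by
  rw [pow_mul, ← mul_pow]
  exact pow_le_pow_left₀ h0 h t

theorem rt {u C c x : ℤ} (e f : ℕ) (hf : e * 2 = f) (hx : 0 ≤ x) (hc : 0 ≤ c)
    (h : u ^ 2 ≤ C * x ^ f) (hC : C ≤ c ^ 2) : u ≤ c * x ^ e :=
  le_of_pow_le_pow_left₀ two_ne_zero (by positivity) <| h.trans <| by
    rw [mul_pow, ← pow_mul, hf]
    exact mul_le_mul_of_nonneg_right hC (by positivity)

theorem cancel {u v t : ℤ} (ht : 0 < t) (h : u * t ≤ v * t) : u ≤ v := le_of_mul_le_mul_right h ht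

/-- The place of a pair in its chain. -/
theorem lev {a b k q : ℤ} (ha : 1 < a) (hab : a < b) (oa : Odd a) (oq : Odd q)
    (e1 : a + b = k * (q + 1)) (e2 : a * b + 1 = q * (a + b)) :
    3 ≤ k ∧ 2 * k - 3 ≤ q ∧ b < k * a ∧ k * a ≤ 4 * b ∧ ((q = 2 * k - 3 ∧ a = 2 * k - 1) ∨
      (q = 2 * ((k - 1) * (k - 2)) - 1 ∧ a = 2 * (k - 1) ^ 2 - 1) ∨
      2 * ((k - 3) * ((k - 3) * (k - 1) + 2)) + 3 ≤ q) := by
  have q0 : 0 < q := by
    by_contra hc
    nlinarith
  have qa : q < a := by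
    by_contra hc
    nlinarith
  have aq : a < 2 * q := by
    by_contra hc
    nlinarith
  obtain ⟨x, hx⟩ : ∃ x, a - q = 2 * x := (oa.sub_odd oq).two_dvd
  obtain ⟨y, hy⟩ : ∃ y, q + 1 = 2 * y := (oq.add_one).two_dvd
  have p1 : (a - q) * (b - q) = q ^ 2 - 1 := by linear_combination e2
  obtain ⟨k3, c1, c2⟩ := chain (k := k) (x := x) (y := y) (by omega) (by omega) (by
    have h1 : q = 2 * y - 1 := by omega
    have h2 : b - q = 2 * ((k - 2) * y + 1 - x) := by
      linear_combination e1 - hx + (k - 2) * hy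
    rw [h2, hx, h1] at p1
    linarith)
  have c3 : (k - 3) * 1 ≤ (k - 3) * x := mul_le_mul_of_nonneg_left (by omega) (by omega)
  have c4 : k * (q + 1) ≤ k * a := mul_le_mul_of_nonneg_left (by omega) (by omega)
  have c5 : k * a ≤ k * (2 * q) := mul_le_mul_of_nonneg_left (by omega) (by omega)
  refine ⟨k3, by omega, by omega, by linarith, ?_⟩
  rcases c2 with ⟨rfl, rfl⟩ | ⟨rfl, rfl⟩ | c
  · exact Or.inl ⟨by omega, by omega⟩
  · exact Or.inr (Or.inl ⟨by omega, by linear_combination hx + hy⟩)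
  · have := mul_le_mul_of_nonneg_left c (show 0 ≤ k - 3 by omega)
    exact Or.inr (Or.inr (by omega))

theorem keyE {w x y z k l q r : ℤ} (w0 : 0 < w) (x1 : 1 < x) (xy : x < y) (wz : w < z)
    (q0 : 0 < q) (e1 : w * x + y * z = k * (q + 1))
    (e2 : w * x * (y * z) + 1 = q * (w * x + y * z)) (e3 : w * y + x * z = l * (r + 1))
    (e4 : w * y * (x * z) + 1 = r * (w * y + x * z)) :
    ∃ E ξ : ℤ, 0 < E ∧ E < x * y ∧
      E ^ 2 * (k * l) * ((q + 1) * (r + 1)) = (y ^ 2 - x ^ 2) ^ 2 * (q * r) ∧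
      ξ * y ^ 2 * (q * r) = x ^ 4 * (x * y + E) * (q * r) + x ^ 2 * y ^ 2 * E * (k * r + l * q) -
        (y ^ 2 - x ^ 2) * E ^ 2 := by
  have x0 : 0 < x := by omega
  have y0 : 0 < y := by omega
  have z0 : 0 < z := by omega
  have σ1 : 0 < w * y + x * z := by positivity
  have J0 : 0 < y ^ 2 - x ^ 2 := by nlinarith
  obtain ⟨E, he⟩ : w ∣ y * q - x * r :=
    (show IsCoprime w (w * y + x * z) from
      ⟨-(y * (x * z)), r, by linear_combination -e4⟩).dvd_of_dvd_mul_left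
      ⟨(y ^ 2 - x ^ 2) * q, by linear_combination x * e4 - x * e2⟩
  have s1 : E * (w * y + x * z) = (y ^ 2 - x ^ 2) * q :=
    mul_left_cancel₀ w0.ne' (by linear_combination -(w * y + x * z) * he + x * e4 - x * e2)
  have s2 : E * (w * x + y * z) = (y ^ 2 - x ^ 2) * r :=
    mul_left_cancel₀ q0.ne' (by linear_combination r * s1 - E * e2 + E * e4)
  have s3 : E * z = y * r - x * q := mul_left_cancel₀ J0.ne' (by linear_combination y * s2 - x * s1)
  have star : x * y * (y * q - x * r) * (y * r - x * q) + E ^ 2 = E * (y ^ 2 - x ^ 2) * q * r := by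
    rw [he, ← s3]; linear_combination E ^ 2 * e2 + E * q * s2
  have c1 : E * k * (q + 1) = (y ^ 2 - x ^ 2) * r := by linear_combination s2 - E * e1
  have c2 : E * l * (r + 1) = (y ^ 2 - x ^ 2) * q := by linear_combination s1 - E * e3
  have qa : q < w * x := by
    by_contra hc
    have a1 : w * x * (w * x + y * z) ≤ q * (w * x + y * z) :=
      mul_le_mul_of_nonneg_right (by omega) (by positivity)
    have a2 : 1 * x ≤ w * x := mul_le_mul_of_nonneg_right w0 x0.le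
    have a3 : 2 * 2 ≤ w * x * (w * x) := mul_self_le_mul_self (by norm_num) (by omega)
    linarith
  refine ⟨E, y ^ 2 * (x * y - E) + 2 * E * x ^ 2 - E * (k + l) * x ^ 2, ?_, ?_,
    by linear_combination (E * l * (r + 1)) * c1 + (y ^ 2 - x ^ 2) * r * c2,
    by linear_combination -(x ^ 2 * y ^ 2 * r) * c1 - (x ^ 2 * y ^ 2 * q) * c2 +
      (y ^ 2 - x ^ 2) * star⟩
  · by_contra hc
    have a1 : E * (w * y + x * z) ≤ 0 := mul_nonpos_of_nonpos_of_nonneg (by omega) σ1.le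
    have a2 : 0 < (y ^ 2 - x ^ 2) * q := mul_pos J0 q0
    omega
  · by_contra hc
    have a1 : x * y * (w * y + x * z) ≤ E * (w * y + x * z) :=
      mul_le_mul_of_nonneg_right (by omega) σ1.le
    have a2 : y ^ 2 * q ≤ y ^ 2 * (w * x) := mul_le_mul_of_nonneg_left qa.le (by positivity)
    have a3 : 0 < x * y * (x * z) := by positivity
    have a4 : 0 < x ^ 2 * q := by positivity
    linarith

/-- The second and third members of two chains. -/
theorem big23 {X Y x y : ℤ} (hx : 0 < x) (hY : 8 ≤ Y) (hX : Y < X) (hy : 0 < y)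
    (e1 : x * (2 * X ^ 2 - 1) = y * (2 * Y ^ 2 - 1))
    (e2 : y * (2 * X + 1) = x * ((Y - 1) * (2 * Y ^ 2 - 1) - Y)) : Y ≤ 512 * x ^ 12 := by
  obtain ⟨c, hc⟩ : ∃ c, c = 2 * Y ^ 2 - 1 := ⟨_, rfl⟩
  have Y0 : 0 < Y := by omega
  have c0 : Y ^ 2 < c := by nlinarith
  have c1 : 0 < c := by nlinarith
  have x2 : 0 < x ^ 2 := by positivity
  obtain ⟨θ, hθ⟩ : ∃ θ, θ = x ^ 2 * (Y - 1) * (2 * X - 1) - 2 * y ^ 2 := ⟨_, rfl⟩
  obtain ⟨η, hη⟩ : ∃ η, η = 2 * θ * Y - x ^ 2 * (2 * X - 1) := ⟨_, rfl⟩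
  have a1 : θ * c = x * y + x ^ 2 * (Y * (2 * X - 1)) := by
    rw [hθ, hc]; linear_combination (-x * (2 * X - 1)) * e2 + 2 * y * e1
  have a2 : Y * η = θ + x * y := by rw [hη]; linear_combination a1 - θ * hc
  have a3 : X ^ 3 < Y ^ 5 := by
    have b1 : (2 * X ^ 2 - 1) * (2 * X + 1) = ((Y - 1) * c - Y) * c :=
      mul_left_cancel₀ hx.ne' (by rw [hc]; linear_combination (2 * X + 1) * e1 + (2 * Y ^ 2 - 1) * e2)
    have b2 : c * c < 4 * Y ^ 4 := by rw [hc]; nlinarith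
    have b3 : Y * (c * c) < Y * (4 * Y ^ 4) := mul_lt_mul_of_pos_left b2 Y0
    nlinarith
  have a4 : X < Y ^ 2 := by
    refine lt_of_pow_lt_pow_left₀ 3 (by positivity) (a3.trans_le ?_)
    rw [← pow_mul]
    exact pow_le_pow_right₀ (by omega) (by norm_num)
  have a5 : y ≤ x * X := by
    refine cancel c1 ?_
    have : 2 * X ^ 2 - 1 ≤ X * c := by rw [hc]; nlinarith
    have := mul_le_mul_of_nonneg_left this hx.le
    rw [hc] at this ⊢
    linarith
  have a6 : x ^ 2 ≤ θ := by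
    refine cancel c1 ?_
    have : c ≤ Y * (2 * X - 1) := by rw [hc]; nlinarith
    have := mul_le_mul_of_nonneg_left this x2.le
    have : 0 < x * y := by positivity
    linarith
  have a7 : θ * Y ≤ 2 * X * x ^ 2 := by
    refine cancel c1 ?_
    have b1 : x * y * Y ≤ x * (x * X) * Y :=
      mul_le_mul_of_nonneg_right (mul_le_mul_of_nonneg_left a5 hx.le) Y0.le
    have b2 : X * Y + Y * (Y * (2 * X - 1)) ≤ 2 * X * c := by
      have : 0 ≤ X * (2 * Y ^ 2 - Y - 2) := mul_nonneg (by omega) (by nlinarith)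
      rw [hc]; nlinarith
    have b3 := mul_le_mul_of_nonneg_left b2 x2.le
    linear_combination Y * a1 + b1 + b3
  have θ0 : 0 < θ := by omega
  have a8 : θ ^ 3 ≤ 8 * Y ^ 2 * x ^ 6 := by
    refine cancel (pow_pos Y0 3) ?_
    have b1 := pow_le_pow_left₀ (by positivity) a7 3
    have b2 := mul_le_mul_of_nonneg_right a3.le (show 0 ≤ 8 * x ^ 6 by positivity)
    linear_combination b1 + b2
  have a9 : θ ≤ x ^ 2 * Y := by
    refine le_of_pow_le_pow_left₀ three_ne_zero (by positivity) (a8.trans ?_)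
    have := mul_le_mul_of_nonneg_right hY (show 0 ≤ Y ^ 2 * x ^ 6 by positivity)
    linear_combination this
  have η0 : 0 < η := by
    by_contra hc'
    have : Y * η ≤ 0 := mul_nonpos_of_nonneg_of_nonpos Y0.le (by omega)
    have : 0 < x * y := by positivity
    omega
  have b1 : (η - x ^ 2) ^ 2 < 2 * x ^ 2 * θ + 2 * x ^ 4 := by
    have d0 : 0 < x ^ 2 * θ := by positivity
    rcases le_total η (x ^ 2) with h | h
    · have d1 : (η - x ^ 2) ^ 2 ≤ (x ^ 2) ^ 2 := sq_le_sq' (by omega) (by omega)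
      have : 0 < x ^ 4 := by positivity
      linarith
    · have d1 : (η - x ^ 2) * Y ≤ x * y := by linarith
      have d2 := pow_le_pow_left₀ (mul_nonneg (by omega) Y0.le) d1 2
      have d3 : y ^ 2 ≤ θ * Y ^ 2 := by
        have f1 : 0 ≤ x ^ 2 * (2 * X - 1) := mul_nonneg x2.le (by omega)
        have f2 : 0 < x * y := by positivity
        rw [hc] at a1
        linarith
      have d4 := mul_le_mul_of_nonneg_left d3 x2.le
      have d5 : (η - x ^ 2) ^ 2 ≤ x ^ 2 * θ := cancel (pow_pos Y0 2) (by linear_combination d2 + d4)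
      have : 0 < x ^ 4 := by positivity
      linarith
  have b2 : Y ∣ 2 * x ^ 2 * θ + 2 * x ^ 4 - (η - x ^ 2) ^ 2 := by
    refine ⟨4 * θ ^ 2 * Y - 4 * θ * (η - x ^ 2) - 4 * x ^ 2 * Y * (Y * η - θ) + 2 * x ^ 2 * η, ?_⟩
    have d1 : x * y = Y * η - θ := by omega
    have d2 : 2 * X * x ^ 2 = 2 * θ * Y - η + x ^ 2 := by linear_combination hη
    have d3 : (2 * X * x ^ 2) ^ 2 - 2 * x ^ 4 = 2 * x ^ 2 * (x * y) * (2 * Y ^ 2 - 1) := by
      linear_combination 2 * x ^ 3 * e1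
    rw [d2, d1] at d3
    linear_combination -d3
  have b3 := Int.le_of_dvd (by omega) b2
  have b4 : Y ≤ 4 * x ^ 2 * θ := by
    have := mul_le_mul_of_nonneg_left a6 x2.le
    linarith [sq_nonneg (η - x ^ 2)]
  have b5 := pow_le_pow_left₀ Y0.le b4 3
  have b6 := mul_le_mul_of_nonneg_left a8 (show 0 ≤ 64 * x ^ 6 by positivity)
  exact cancel (pow_pos Y0 2) (by linear_combination b5 + b6)

theorem cube {k q : ℤ} (k0 : 0 < k) (kq : k ≤ q) : k * q * (q + 1) ≤ 2 * q ^ 3 := by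
  have q0 : 0 < q := by omega
  have := mul_le_mul (mul_le_mul_of_nonneg_right kq q0.le) (show q + 1 ≤ 2 * q by omega) (by omega)
    (by positivity)
  linarith

theorem far {l r : ℤ} (hl : 4 ≤ l) (h : 2 * ((l - 3) * ((l - 3) * (l - 1) + 2)) + 3 ≤ r) :
    l ^ 3 ≤ 5 * r := by
  obtain ⟨t, rfl⟩ : ∃ t, l = t + 4 := ⟨l - 4, by ring⟩
  have t0 : 0 ≤ t := by omega
  have : 0 ≤ 9 * t ^ 3 + 38 * t ^ 2 + 42 * t := by positivity
  linarith

theorem caseTop {x k l q : ℤ} (hx : 3 ≤ x) (l0 : 0 < l) (lk : l < k) (kq : k ≤ q)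
    (h1 : k ^ 3 ≤ 5 * q) (h2 : q ^ 2 ≤ 5 * x ^ 8 * (k ^ 3 * l)) : k * q * (q + 1) ≤ x ^ 150 := by
  have k0 : 0 < k := by omega
  have x0 : 0 < x := by omega
  have a1 := mul_le_mul_of_nonneg_left lk.le (show 0 ≤ 5 * x ^ 8 * k ^ 3 by positivity)
  have a2 := pow_le_pow_left₀ (by positivity) h1 2
  have a3 : k ^ 2 ≤ 125 * x ^ 8 := cancel (pow_pos k0 4) (by linear_combination a2 + 25 * h2 + 25 * a1)
  have a4 := mul_le_mul_of_nonneg_left (pw 8 2 (by positivity) a3) (show 0 ≤ 5 * x ^ 8 by positivity)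
  have a5 : q ≤ 280 * x ^ 12 :=
    rt (C := 78125) 12 24 rfl x0.le (by norm_num) (by linear_combination h2 + a1 + a4) (by norm_num)
  exact fin (C := 2 * 280 ^ 3) 36 20 hx (by linear_combination cube k0 kq + 2 * pw 12 3 (by omega) a5)
    (by norm_num) (by norm_num)

theorem caseTwo {x k l q r : ℤ} (hx : 3 ≤ x) (l0 : 0 < l) (k4 : 4 ≤ k)
    (hq : q = 2 * ((k - 1) * (k - 2)) - 1) (hr : 2 * ((l - 3) * ((l - 3) * (l - 1) + 2)) + 3 ≤ r)
    (nn : k * q * (q + 1) = l * r * (r + 1)) (h2 : q ^ 2 ≤ 5 * x ^ 8 * (k ^ 3 * l)) :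
    k * q * (q + 1) ≤ x ^ 150 := by
  have k0 : 0 < k := by omega
  have x0 : 0 < x := by omega
  have q0 : 0 < q := by nlinarith
  have a1 : k * q * (q + 1) ≤ 4 * k ^ 5 := by
    have := mul_le_mul (mul_le_mul_of_nonneg_left (show q ≤ 2 * k ^ 2 by linarith) k0.le)
      (show q + 1 ≤ 2 * k ^ 2 by linarith) (by omega) (by positivity)
    linarith
  have fn : ∀ (c : ℤ) (e s : ℕ), k ≤ c * x ^ e → 4 * c ^ 5 ≤ 3 ^ s → s + e * 5 ≤ 150 →
      k * q * (q + 1) ≤ x ^ 150 := fun c e s h =>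
    fin _ s hx (by linear_combination a1 + 4 * pw e 5 k0.le h)
  rcases le_or_gt k 100 with hk | hk
  · exact fn 100 0 30 (by linarith) (by norm_num) (by norm_num)
  have a2 : 19 * k ^ 2 ≤ 10 * q := by nlinarith
  have a3 := pow_le_pow_left₀ (by positivity) a2 2
  have a4 : 361 * k ≤ 500 * (x ^ 8 * l) :=
    cancel (pow_pos k0 3) (by linear_combination a3 + 100 * h2)
  have x8 : 0 < x ^ 8 := by positivity
  rcases le_or_gt l 100 with hl | hl
  · have := mul_le_mul_of_nonneg_left hl x8.le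
    exact fn 140 8 50 (by linarith) (by norm_num) (by norm_num)
  have a5 : 9 * l ^ 3 ≤ 5 * r := by
    obtain ⟨t, rfl⟩ : ∃ t, l = t + 100 := ⟨l - 100, by ring⟩
    have t0 : 0 ≤ t := by omega
    have : 0 ≤ t ^ 3 + 230 * t ^ 2 + 16170 * t := by positivity
    linarith
  have a6 := mul_le_mul_of_nonneg_left (pow_le_pow_left₀ (by positivity) a5 2) l0.le
  have a7 : 0 < l * r := mul_pos l0 (by linarith [pow_pos l0 3])
  have a8 : 5 * k ≤ 7 * (x ^ 8 * l) := by linarith [mul_pos x8 l0]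
  have a9 := pow_le_pow_left₀ (by positivity) a8 5
  have b1 : l ≤ 3 * x ^ 20 := rt (C := 9) 20 40 rfl x0.le (by norm_num) (cancel (pow_pos l0 5) (by
    have : 0 < x ^ 40 * l ^ 5 := by positivity
    linarith)) (by norm_num)
  have := mul_le_mul_of_nonneg_left b1 x8.le
  have : 0 < x ^ 28 := by positivity
  exact fn 5 28 10 (by linarith) (by norm_num) (by norm_num)

theorem caseOne {x k l r E : ℤ} (hx : 3 ≤ x) (l3 : 3 ≤ l) (lk : l < k) (r0 : 0 < r)
    (nn : k * (2 * k - 3) * (2 * k - 3 + 1) = l * r * (r + 1)) (hE : E ^ 2 ≤ k * l * x ^ 4)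
    (h : 3 * ((2 * k - 3) * r) ≤ 10 * (x ^ 2 * E * r) + 7 * (x ^ 2 * E * l * (2 * k - 3)))
    (h5 : l ≤ 3 ∨ l ^ 2 ≤ 2 * r)
    (h7 : l ≤ 3 ∨ l ^ 3 ≤ 5 * r ∨ E ^ 2 * l ^ 3 ≤ 16 * k * x ^ 4) :
    k * (2 * k - 3) * (2 * k - 3 + 1) ≤ x ^ 150 := by
  have k0 : 0 < k := by omega
  have l0 : 0 < l := by omega
  have x0 : 0 < x := by omega
  have lr : 0 < l * r := by positivity
  have k2 : 4 * k ≤ k * k := mul_le_mul_of_nonneg_right (by omega) k0.le
  have k3 := mul_le_mul_of_nonneg_left k2 k0.le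
  have k4 : 4 ^ 3 ≤ k ^ 3 := pow_le_pow_left₀ (by norm_num) (by omega) 3
  have a1 : k * (2 * k - 3) * (2 * k - 3 + 1) ≤ 4 * k ^ 3 := by linarith
  have fn : ∀ (c : ℤ) (e s : ℕ), k ≤ c * x ^ e → 4 * c ^ 3 ≤ 3 ^ s → s + e * 3 ≤ 150 →
      k * (2 * k - 3) * (2 * k - 3 + 1) ≤ x ^ 150 := fun c e s h =>
    fin _ s hx (by linear_combination a1 + 4 * pw e 3 k0.le h)
  have x8 : 0 < x ^ 8 := by positivity
  have a2 := mul_le_mul_of_nonneg_left hE (show 0 ≤ x ^ 4 by positivity)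
  rcases le_total (3 * ((2 * k - 3) * r)) (20 * (x ^ 2 * E * r)) with c | c
  · have b1 : k ≤ 7 * (x ^ 2 * E) := by
      have : 3 * (2 * k - 3) ≤ 20 * (x ^ 2 * E) := cancel r0 (by linarith)
      omega
    have b2 := pow_le_pow_left₀ k0.le b1 2
    have b3 : k ≤ 49 * (x ^ 8 * l) := cancel k0 (by linarith)
    have b4 : l ^ 5 ≤ 16 * k ^ 3 := by
      rcases h5 with h5 | h5
      · have := pow_le_pow_left₀ l0.le h5 5
        linarith
      · have := mul_le_mul_of_nonneg_left (pow_le_pow_left₀ (by positivity) h5 2) l0.le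
        linarith
    have b5 := pow_le_pow_left₀ k0.le b3 3
    have b6 : l ≤ 1372 * x ^ 12 := rt (C := 1882384) 12 24 rfl x0.le (by norm_num)
      (cancel (pow_pos l0 3) (by linarith)) (by norm_num)
    have := mul_le_mul_of_nonneg_left b6 x8.le
    exact fn 67228 20 40 (by linarith) (by norm_num) (by norm_num)
  have b1 : r ≤ 5 * (x ^ 2 * E * l) := by
    have : 3 * r ≤ 14 * (x ^ 2 * E * l) := cancel (show 0 < 2 * k - 3 by omega) (by linarith)
    omega
  have b2 := mul_le_mul_of_nonneg_left (pow_le_pow_left₀ r0.le b1 2) l0.le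
  have b3 : l * r * 1 ≤ l * r * r := mul_le_mul_of_nonneg_left r0 lr.le
  have b4 : k ^ 3 ≤ 50 * (x ^ 4 * (E ^ 2 * l ^ 3)) := by linarith
  have b5 : l ^ 7 ≤ 100 * k ^ 3 ∨ E ^ 2 * l ^ 3 ≤ 16 * k * x ^ 4 := by
    rcases h7 with h7 | h7 | h7
    · have := pow_le_pow_left₀ l0.le h7 7
      exact Or.inl (by linarith)
    · have := mul_le_mul_of_nonneg_left (pow_le_pow_left₀ (by positivity) h7 2) l0.le
      exact Or.inl (by linarith)
    · exact Or.inr h7
  rcases b5 with b5 | b5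
  · have d1 := mul_le_mul_of_nonneg_right a2 (pow_pos l0 3).le
    have d2 : k ^ 2 ≤ 50 * (x ^ 8 * l ^ 4) := cancel k0 (by linarith)
    have d3 := pow_le_pow_left₀ (by positivity) d2 3
    have d4 := pow_le_pow_left₀ (by positivity) b5 2
    have d5 : l ^ 2 ≤ 1250000000 * x ^ 24 := cancel (pow_pos l0 12) (by linarith)
    have d6 : k ≤ 8 * (x ^ 4 * l ^ 2) :=
      le_of_pow_le_pow_left₀ two_ne_zero (by positivity) (by
        have : 0 < x ^ 8 * l ^ 4 := by positivity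
        linarith)
    have := mul_le_mul_of_nonneg_left d5 (pow_pos x0 4).le
    exact fn 10000000000 28 66 (by linarith) (by norm_num) (by norm_num)
  · have d1 := mul_le_mul_of_nonneg_left b5 (pow_pos x0 4).le
    exact fn 29 4 20 (rt (C := 800) 4 8 rfl x0.le (by norm_num) (cancel k0 (by linarith)) (by norm_num))
      (by norm_num) (by norm_num)

theorem bigCore {w x y z k l q r : ℤ} (w0 : 0 < w) (hx : 3 ≤ x) (xy : x < y) (wz : w < z)
    (ow : Odd w) (ox : Odd x) (oy : Odd y) (oz : Odd z) (oq : Odd q) (or' : Odd r)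
    (e1 : w * x + y * z = k * (q + 1)) (e2 : w * x * (y * z) + 1 = q * (w * x + y * z))
    (e3 : w * y + x * z = l * (r + 1)) (e4 : w * y * (x * z) + 1 = r * (w * y + x * z))
    (hne : w * y ≠ x * z) : k * q * (q + 1) ≤ x ^ 150 := by
  have x0 : 0 < x := by omega
  have y0 : 0 < y := by omega
  have z0 : 0 < z := by omega
  have g : ∀ {s t : ℤ}, 0 < s → 1 < t → 1 < s * t := fun hs ht => by nlinarith
  obtain ⟨k3, kq, b1, -, L1⟩ := lev (g w0 (by omega))
    (mul_comm y z ▸ mul_lt_mul'' wz xy w0.le x0.le) (ow.mul ox) oq e1 e2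
  have nn : k * q * (q + 1) = l * r * (r + 1) := by
    linear_combination r * e3 - q * e1 + e4 - e2
  obtain ⟨l3, lr, b2, L2⟩ : 3 ≤ l ∧ 2 * l - 3 ≤ r ∧ w * y < l * (x * z) ∧ (r = 2 * l - 3 ∨
      (r = 2 * ((l - 1) * (l - 2)) - 1 ∧
        (x * z = 2 * (l - 1) ^ 2 - 1 ∨ l * (w * y) ≤ 4 * (x * z))) ∨
      2 * ((l - 3) * ((l - 3) * (l - 1) + 2)) + 3 ≤ r) := by
    rcases hne.lt_or_gt with h | h
    · obtain ⟨a, b, -, c, d⟩ := lev (g w0 (by omega)) h (ow.mul oy) or' e3 e4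
      have := mul_le_mul_of_nonneg_right (show 1 ≤ l by omega) (mul_pos x0 z0).le
      exact ⟨a, b, by linarith, d.imp And.left (Or.imp_left fun e => ⟨e.1, Or.inr c⟩)⟩
    · obtain ⟨a, b, c, -, d⟩ := lev (k := l) (by simpa [mul_comm] using g z0 (show 1 < x by omega)) h
        (ox.mul oz) or' (by linarith) (by linarith)
      exact ⟨a, b, c, d.imp And.left (Or.imp_left fun e => ⟨e.1, Or.inl e.2⟩)⟩
  have q0 : 0 < q := by omega
  have r0 : 0 < r := by omega
  have k0 : 0 < k := by omega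
  have l0 : 0 < l := by omega
  have qr : q < r := by
    by_contra hc
    have a1 := mul_le_mul_of_nonneg_right (not_lt.1 hc) (show 0 ≤ w * y + x * z by positivity)
    have a2 := mul_pos q0 (mul_pos (sub_pos.2 wz) (sub_pos.2 xy))
    linarith
  have lq : l * r < k * q := by
    by_contra hc
    have c1 : k * q * (q + 1) ≤ l * r * (q + 1) := mul_le_mul_of_nonneg_right (by omega) (by omega)
    have c2 : l * r * (q + 1) < l * r * (r + 1) := mul_lt_mul_of_pos_left (by omega) (by positivity)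
    linarith
  have m1 : l * q < l * r := mul_lt_mul_of_pos_left qr l0
  have m2 : k * q < k * r := mul_lt_mul_of_pos_left qr k0
  have lk : l < k := lt_of_mul_lt_mul_right (m1.trans lq) q0.le
  obtain ⟨E, ξ, E0, Exy, f1, f2⟩ := keyE w0 (by omega) xy wz q0 e1 e2 e3 e4
  obtain ⟨D, hD⟩ : ∃ D, D = y ^ 2 - x ^ 2 := ⟨_, rfl⟩
  rw [← hD] at f1 f2
  have x2 : 0 < x ^ 2 := by positivity
  have D0 : 0 < D := by rw [hD]; exact sub_pos.2 (pow_lt_pow_left₀ xy x0.le two_ne_zero)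
  have D1 : D ^ 2 ≤ (y ^ 2) ^ 2 := pow_le_pow_left₀ D0.le (by omega) 2
  have D2 : E ^ 2 * (k * l) < D ^ 2 := by
    refine lt_of_mul_lt_mul_right (a := (q + 1) * (r + 1)) ?_ (by positivity)
    have : 0 < D ^ 2 * (q + r + 1) := by positivity
    linarith
  have D3 : q + 1 ≤ 2 * D ^ 2 := by
    refine cancel (show 0 < r + 1 by omega) ?_
    have a1 := mul_le_mul_of_nonneg_right (Int.add_one_le_of_lt D2)
      (show 0 ≤ (q + 1) * (r + 1) by positivity)
    have a2 := mul_le_mul_of_nonneg_left (show q + r + 1 ≤ 2 * (r + 1) by omega) (sq_nonneg D)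
    linarith
  rcases le_total y (40 * x ^ 5) with hy | hy
  · have a1 : q ≤ 5120000 * x ^ 20 := by linear_combination D3 + 2 * D1 + 2 * pw 5 4 y0.le hy
    exact fin (C := 2 * 5120000 ^ 3) 60 90 hx
      (by linear_combination cube k0 (show k ≤ q by omega) + 2 * pw 20 3 q0.le a1)
      (by norm_num) (by norm_num)
  have y1 : y ^ 2 ≤ k * l * x ^ 2 := by
    have := mul_lt_mul'' b1 b2 (by positivity) (by positivity)
    exact cancel (mul_pos w0 z0) (by linarith)
  have hE : E ^ 2 ≤ k * l * x ^ 4 := by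
    have := pow_le_pow_left₀ (by positivity) y1 2
    exact cancel (mul_pos k0 l0) (by linarith)
  have QR : 0 < q * r := by positivity
  have y2 : 0 < y ^ 2 := by positivity
  have n1 : 20 * (x ^ 4 * (x * y + E) * (q * r)) ≤ y ^ 2 * (q * r) := by
    have a1 := mul_le_mul_of_nonneg_left Exy.le (pow_pos x0 4).le
    have a2 := mul_le_mul_of_nonneg_right hy y0.le
    have := mul_le_mul_of_nonneg_right (show 20 * (x ^ 4 * (x * y + E)) ≤ y ^ 2 by linarith) QR.le
    linarith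
  have n2 : 0 < x ^ 4 * (x * y + E) * (q * r) := by positivity
  have n3 : 0 < D * E ^ 2 := by positivity
  have n4 : D * E ^ 2 ≤ x ^ 2 * y ^ 2 * E * r := by
    have a0 : k * l ≤ r ^ 2 := by
      rw [sq]; exact mul_le_mul (by omega) (by omega) l0.le r0.le
    have a1 : E ≤ r * x ^ 2 := rt (C := r ^ 2) 2 4 rfl x0.le r0.le
      (hE.trans (mul_le_mul_of_nonneg_right a0 (by positivity))) le_rfl
    have a2 := mul_le_mul (show D ≤ y ^ 2 by omega) a1 E0.le y2.le
    have := mul_le_mul_of_nonneg_right a2 E0.le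
    linarith
  have n5 : 0 < x ^ 2 * y ^ 2 * E := by positivity
  have n6 : 0 < x ^ 2 * y ^ 2 * E * (l * q) := by positivity
  have n7 : 0 < x ^ 2 * y ^ 2 * E * r := by positivity
  have h2 : q ^ 2 ≤ 5 * x ^ 8 * (k ^ 3 * l) := by
    have a1 := mul_le_mul_of_nonneg_left (show 1 * r ≤ k * r from
      mul_le_mul_of_nonneg_right k0 r0.le) n5.le
    have a2 : 0 < ξ := (mul_pos_iff_of_pos_right (mul_pos y2 QR)).1 (by linarith)
    have a3 := mul_le_mul_of_nonneg_right (Int.add_one_le_of_lt a2) (mul_pos y2 QR).le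
    have a4 := mul_le_mul_of_nonneg_left (show l * q ≤ k * r by omega) n5.le
    have a5 : 19 * q ≤ 40 * (x ^ 2 * E * k) := cancel (mul_pos y2 r0) (by linarith)
    have a6 := pow_le_pow_left₀ (by positivity) a5 2
    have a7 := mul_le_mul_of_nonneg_left hE (show 0 ≤ x ^ 4 * k ^ 2 by positivity)
    have a8 : 0 < x ^ 8 * (k ^ 3 * l) := by positivity
    linarith
  rcases L1 with ⟨rfl, ha⟩ | ⟨hq, -⟩ | hq
  rotate_left
  · have a1 : (l - 1) * (l - 2) ≤ (k - 1) * (k - 2) :=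
      mul_le_mul (by omega) (by omega) (by omega) (by omega)
    refine caseTwo hx l0 (by omega) hq ?_ nn h2
    rcases L2 with h | ⟨h, -⟩ | h
    · omega
    · omega
    · exact h
  · exact caseTop hx l0 lk (by omega) (far (by omega) hq) h2
  have a1 : 0 < 2 * ξ - x ^ 2 * E := (mul_pos_iff_of_pos_right (mul_pos y2 QR)).1 (by linarith)
  have a2 := mul_le_mul_of_nonneg_right (Int.add_one_le_of_lt a1) (mul_pos y2 QR).le
  have a3 : 3 * ((2 * k - 3) * r) ≤ 10 * (x ^ 2 * E * r) + 7 * (x ^ 2 * E * l * (2 * k - 3)) :=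
    cancel y2 (by linarith)
  have a4 : l ≤ 3 ∨ 4 ≤ l := by omega
  rcases L2 with h | ⟨h, h' | h'⟩ | h
  · omega
  · have c1 : k * (2 * k - 3) * (2 * k - 3 + 1) ≤ 4 * l ^ 5 := by
      have := mul_le_mul (mul_le_mul_of_nonneg_left (show r ≤ 2 * l ^ 2 by linarith) l0.le)
        (show r + 1 ≤ 2 * l ^ 2 by linarith) (by omega) (by positivity)
      linarith
    have c2 : l ≤ 513 * x ^ 12 := by
      have c3 : 3 ^ 12 ≤ x ^ 12 := pow_le_pow_left₀ (by norm_num) hx 12
      rcases le_or_gt l 8 with c4 | c4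
      · linarith
      have := big23 (X := k - 1) (Y := l - 1) x0 (by omega) (by omega) y0
        (by linear_combination -x * e1 + x * ha + y * h')
        (by linear_combination -y * ha + x * e3 - x * h' + x * l * h)
      linarith
    exact fin (C := 4 * 513 ^ 5) 60 90 hx (by linear_combination c1 + 4 * pw 12 5 l0.le c2)
      (by norm_num) (by norm_num)
  · refine caseOne hx l3 lk r0 nn hE a3 (a4.imp_right fun c => by
      linarith [mul_le_mul_of_nonneg_right c l0.le]) (Or.inr (Or.inr ?_))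
    have c1 : l * y ^ 2 ≤ 4 * k * x ^ 2 := by
      have := mul_le_mul h' b1.le (by positivity) (by positivity)
      exact cancel (mul_pos w0 z0) (by linarith)
    have c2 := pow_le_pow_left₀ (by positivity) c1 2
    have c3 := mul_le_mul_of_nonneg_left (D2.le.trans D1) (pow_pos l0 2).le
    exact cancel k0 (by linarith)
  · refine caseOne hx l3 lk r0 nn hE a3 (a4.imp_right fun c => ?_)
      (a4.imp_right fun c => Or.inl (far c h))
    have c1 := far c h
    have c2 := mul_le_mul_of_nonneg_right c (pow_pos l0 2).le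
    linarith

theorem Comp.ne {a b : ℤ} (h : Comp a b) : a ≠ b := by
  rintro rfl
  have := Int.isUnit_iff.1 (isCoprime_self.1 h.coprime)
  have := h.1
  omega

theorem big {w x y z : ℤ} (w0 : 0 < w) (hx : 1 < x) (xy : x < y) (wz : w < z)
    (h1 : Comp (w * x) (y * z)) (h2 : Comp (w * y) (x * z)) : w * x * (y * z) < x ^ 150 := by
  obtain ⟨k, q, oq, e1, e2⟩ := pair h1.1 h1.2.1 h1.2.2.1 h1.2.2.2.1 h1.2.2.2.2
  obtain ⟨l, r, or', e3, e4⟩ := pair h2.1 h2.2.1 h2.2.2.1 h2.2.2.2.1 h2.2.2.2.2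
  obtain ⟨ow, ox⟩ := Int.odd_mul.1 h1.2.2.1
  obtain ⟨oy, oz⟩ := Int.odd_mul.1 h1.2.2.2.1
  have := bigCore w0 (by obtain ⟨t, rfl⟩ := ox; omega) xy wz ow ox oy oz oq or' e1 e2 e3 e4 h2.ne
  linear_combination this + e2 + q * e1

/-- All four parts are large. -/
theorem big4 {w x y z : ℤ} (hw : 1 < w) (hx : 1 < x) (xy : x < y) (wz : w < z)
    (h1 : Comp (w * x) (y * z)) (h2 : Comp (w * y) (x * z)) :
    w * x * (y * z) < w ^ 150 ∧ w * x * (y * z) < x ^ 150 ∧ w * x * (y * z) < y ^ 150 ∧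
      w * x * (y * z) < z ^ 150 := by
  have a := big (by omega) hx xy wz h1 h2
  have b := big (w := x) (x := w) (y := z) (z := y) (by omega) hw wz xy
    (by rwa [mul_comm x, mul_comm z]) h2.symm
  have b' : w * x * (y * z) < w ^ 150 := by linarith
  exact ⟨b', a, a.trans (pow_lt_pow_left₀ xy (by omega) (by norm_num)),
    b'.trans (pow_lt_pow_left₀ wz (by omega) (by norm_num))⟩

end Pool.Agent.Lib.MP_148e9f_nt
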