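import Mathlib

/-!
The finite check for small parameters.
-/

set_option autoImplicit false

namespace Pool.Agent.Lib.MP_148e9f_nt

/-- Bounded conjunction. -/
def allB (f : ℕ → Bool) : ℕ → Bool := fun n => Nat.rec true (fun m ih => f m && ih) n

theorem allB_spec {f : ℕ → Bool} {n : ℕ} (h : allB f n = true) : ∀ m < n, f m = true := by
  induction n with
  | zero => intro m hm; omega
  | succ n ih =>
    have h' : (f n && allB f n) = true := h
    rw [Bool.and_eq_true] at h'
    intro m hm
    rcases Nat.lt_succ_iff_lt_or_eq.1 hm with h1 | rfl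
    exacts [ih h'.2 m h1, h'.1]

/-- The test for `x = k - 1` and `j = 2 t + 3`. -/
def ok (x t : ℕ) : Bool :=
  cond (Nat.beq ((2 * x * x - 1) % (2 * t + 3)) 0)
    (!(Nat.beq ((2 * (x + 1) * x * (2 * x - 1)) %
        ((2 * x * x - 1) / (2 * t + 3) + (2 * x + 1) * (2 * t + 3))) 0 &&
      Nat.beq (((2 * x * x - 1) / (2 * t + 3) + (2 * x + 1) * (2 * t + 3)) %
        ((2 * (x + 1) * x * (2 * x - 1)) /
          ((2 * x * x - 1) / (2 * t + 3) + (2 * x + 1) * (2 * t + 3)) + 1)) 0))
    true

theorem check : allB (fun x => allB (ok x) (x / 2)) 1500 = true := by decide +kernel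

theorem small {x t i r l : ℕ} (hx : x < 1500) (ht : 2 * t + 3 ≤ x)
    (h1 : i * (2 * t + 3) + 1 = 2 * x * x)
    (h2 : r * (i + (2 * x + 1) * (2 * t + 3)) = 2 * (x + 1) * x * (2 * x - 1))
    (h3 : i + (2 * x + 1) * (2 * t + 3) = l * (r + 1)) : False := by
  have h := allB_spec (allB_spec check x hx) t (by omega)
  have e1 : 2 * x * x - 1 = i * (2 * t + 3) := by omega
  have e2 : (2 * x * x - 1) / (2 * t + 3) = i := by
    rw [e1, Nat.mul_div_cancel _ (by omega)]
  have e3 : 0 < i + (2 * x + 1) * (2 * t + 3) := by positivity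
  unfold ok at h
  rw [e2, ← h2, e1, Nat.mul_mod_left, Nat.mul_mod_left, Nat.mul_div_cancel _ e3, h3,
    Nat.mul_mod_left] at h
  exact absurd h (by decide)

end Pool.Agent.Lib.MP_148e9f_nt
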