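import Mathlib
import Pool.Agent.Lib.MP_148e9f_nt.Check

-- part Pool.Agent.Lib.MP_148e9f_nt.Core
section

/-!
Two pairs of components `(h, i j)` and `(i, h j)` of the same number cannot exist.
-/

set_option autoImplicit false

namespace Pool.Agent.Lib.MP_148e9f_nt

theorem descent (k : ℤ) : ∀ (N : ℕ) (u v : ℤ), 1 ≤ u → 1 ≤ v → u + v ≤ N →
    (u + v - 1) ^ 2 = k * u * v → k ∣ u + v - 1 := by
  intro N
  induction N with
  | zero => intro u v hu hv h; simp at h; omega
  | succ N ih =>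
    have key : ∀ u v : ℤ, 1 ≤ u → u ≤ v → u + v ≤ (N + 1 : ℕ) →
        (u + v - 1) ^ 2 = k * u * v → k ∣ u + v - 1 := by
      intro u v hu huv hN h
      rcases hu.eq_or_lt with rfl | hu'
      · have : v = k := mul_right_cancel₀ (show v ≠ 0 by omega) (by linear_combination h)
        exact ⟨1, by omega⟩
      obtain ⟨w, hw⟩ : ∃ w, w = (k - 2) * u + 2 - v := ⟨_, rfl⟩
      have h1 : v * w = (u - 1) ^ 2 := by rw [hw]; linear_combination -h
      have h2 : 0 < w := by
        by_contra hc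
        nlinarith
      have h3 : w < v := by
        by_contra hc
        nlinarith
      have h4 := ih u w hu h2 (by push_cast at hN; omega) (by
        have : v = (k - 2) * u + 2 - w := by omega
        rw [this] at h1
        linear_combination -h1)
      have h5 : u + v - 1 = k * u - (u + w - 1) := by rw [hw]; ring
      rw [h5]
      exact dvd_sub (dvd_mul_right _ _) h4
    intro u v hu hv hN h
    rcases le_total u v with huv | huv
    · exact key u v hu huv hN h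
    · rw [add_comm]
      exact key v u hv huv (by omega) (by linear_combination h)

theorem step {k x y : ℤ} (hx : 1 ≤ x) (hxy : x < y)
    (h : x * ((k - 2) * y + 1 - x) = y * (y - 1)) :
    ∃ w, 0 ≤ w ∧ w < x ∧ y = (k - 2) * x + 1 - w ∧ w * ((k - 2) * x + 1 - w) = x * (x - 1) ∧
      (w = 0 → x = 1) := by
  obtain ⟨w, hw⟩ : ∃ w, w = (k - 2) * x + 1 - y := ⟨_, rfl⟩
  have h1 : y * w = x * (x - 1) := by rw [hw]; linear_combination h
  refine ⟨w, ?_, ?_, by omega, by rw [← h1, hw]; ring, ?_⟩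
  · by_contra hc
    nlinarith
  · by_contra hc
    nlinarith
  · rintro rfl
    have : x * (x - 1) = 0 := by linear_combination -h1
    rcases mul_eq_zero.1 this with e | e <;> omega

theorem chain {k x y : ℤ} (hx : 1 ≤ x) (hxy : x < y)
    (h : x * ((k - 2) * y + 1 - x) = y * (y - 1)) :
    3 ≤ k ∧ (k - 3) * x + 2 ≤ y ∧ ((x = 1 ∧ y = k - 1) ∨ (x = k - 1 ∧ y = (k - 1) * (k - 2)) ∨
      (k - 3) * (k - 1) + 2 ≤ x) := by
  obtain ⟨w, w0, w1, w2, w3, w4⟩ := step hx hxy h
  have hk : 3 ≤ k := by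
    by_contra hc
    nlinarith
  refine ⟨hk, by linarith, ?_⟩
  rcases w0.eq_or_lt with rfl | w0
  · obtain rfl := w4 rfl
    exact Or.inl ⟨rfl, by omega⟩
  obtain ⟨z, z0, z1, z2, z3, z4⟩ := step w0 w1 w3
  rcases z0.eq_or_lt with rfl | z0
  · obtain rfl := z4 rfl
    obtain rfl : x = k - 1 := by omega
    exact Or.inr (Or.inl ⟨rfl, by rw [w2]; ring⟩)
  obtain ⟨t, t0, t1, t2, -, -⟩ := step z0 z1 z3
  have : k - 1 ≤ w := by nlinarith
  exact Or.inr (Or.inr (by nlinarith))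

/-- The case of the second and third members of two chains. -/
theorem case23 {X Y j : ℤ} (hX : 1499 ≤ X) (hj : 0 < j) (hjX : j < X) (hY : 0 < Y)
    (e1 : 2 * X ^ 2 - 1 = j * (2 * Y ^ 2 - 1))
    (e2 : j * (2 * X + 1) = (Y - 1) * (2 * Y ^ 2 - 1) - Y) : False := by
  obtain ⟨c, hc⟩ : ∃ c, c = 2 * Y ^ 2 - 1 := ⟨_, rfl⟩
  have c0 : 0 < c := by nlinarith
  obtain ⟨θ, hθ⟩ : ∃ θ, θ = (Y - 1) * (2 * X - 1) - 2 * j ^ 2 := ⟨_, rfl⟩
  obtain ⟨η, hη⟩ : ∃ η, η = 2 * θ * Y - (2 * X - 1) := ⟨_, rfl⟩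
  have a1 : θ * c = j + Y * (2 * X - 1) := by
    rw [hθ, hc]; linear_combination (-(2 * X - 1)) * e2 + 2 * j * e1
  have a2 : Y * η = θ + j := by rw [hη]; linear_combination a1 - θ * hc
  have a3 : X ^ 3 < Y ^ 5 := by
    have b1 : (2 * X ^ 2 - 1) * (2 * X + 1) = ((Y - 1) * c - Y) * c := by
      rw [e1, hc]; linear_combination (2 * Y ^ 2 - 1) * e2
    have b2 : c * c < 4 * Y ^ 4 := by rw [hc]; nlinarith
    have b3 : Y * (c * c) < Y * (4 * Y ^ 4) := mul_lt_mul_of_pos_left b2 hY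
    nlinarith
  have a4 : 81 ≤ Y := by
    by_contra hc'
    have b1 : Y ^ 5 ≤ 80 ^ 5 := pow_le_pow_left₀ hY.le (by omega) 5
    have b2 : (1499 : ℤ) ^ 3 ≤ X ^ 3 := pow_le_pow_left₀ (by norm_num) hX 3
    norm_num at b1 b2
    omega
  have a5 : 0 < θ := by
    by_contra hc'
    nlinarith
  have a6 : 2 * θ + 2 < Y := by
    by_contra hc'
    have b1 : (Y - 2) * c ≤ 2 * θ * c := mul_le_mul_of_nonneg_right (by omega) c0.le
    have b2 : 2 * Y ^ 2 ≤ 5 * X := by
      by_contra hc''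
      rw [hc] at b1 a1
      nlinarith
    have b3 : (2 * Y ^ 2) ^ 3 ≤ (5 * X) ^ 3 := pow_le_pow_left₀ (by positivity) b2 3
    have b4 : 0 < Y ^ 5 := by positivity
    nlinarith
  have a7 : 0 < η := by
    by_contra hc'
    nlinarith
  have a8 : (η - 1) ^ 2 < θ := by
    have b1 : (η - 1) * Y < j := by nlinarith
    have b2 : ((η - 1) * Y) ^ 2 < j ^ 2 := pow_lt_pow_left₀ b1 (by nlinarith) two_ne_zero
    have b3 : 2 * j ^ 2 < 2 * θ * Y ^ 2 := by nlinarith
    by_contra hc'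
    nlinarith
  have a9 : Y ∣ 2 * θ + 2 - (η - 1) ^ 2 := by
    refine ⟨4 * θ ^ 2 * Y - 4 * θ * (η - 1) - 4 * Y * (Y * η - θ) + 2 * η, ?_⟩
    have b1 : j = Y * η - θ := by omega
    have b2 : 2 * X = 2 * θ * Y - η + 1 := by omega
    have b3 : (2 * X) ^ 2 - 2 = 2 * j * (2 * Y ^ 2 - 1) := by linear_combination 2 * e1
    rw [b2, b1] at b3
    linear_combination -b3
  have := Int.le_of_dvd (by omega) a9
  nlinarith [sq_nonneg (η - 1)]

end Pool.Agent.Lib.MP_148e9f_nt
end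

-- part Pool.Agent.Lib.MP_148e9f_nt.High
section

/-!
The first case of the analysis.
-/

set_option autoImplicit false

namespace Pool.Agent.Lib.MP_148e9f_nt

/-- The first pair is at least the third member of its chain. -/
theorem caseHigh {j k l q r e μ ξ : ℤ} (hj : 3 ≤ j) (oj : Odd j) (hjk : j + 2 ≤ k) (hl : 0 < l)
    (hlk : l < k) (hq : 2 * k ^ 2 - 8 * k + 9 ≤ q) (hqr : q < r) (he : 0 < e) (hμ : 2 ≤ μ)
    (hjμ : j = e + μ) (hξ : ξ = μ * j ^ 2 + 2 * e - e * (k + l)) (x0 : 1 ≤ ξ)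
    (x1 : ξ * j ^ 2 * q * r < j ^ 2 * e * k * r + j ^ 2 * e * l * q + (2 * j - μ) * q * r)
    (st : μ * q * r < q ^ 2 + r ^ 2) (lq : l * r < k * q) : False := by
  have q0 : 0 < q := by nlinarith
  have r0 : 0 < r := by omega
  have qr : 0 < q * r := mul_pos q0 r0
  have j2 : 0 < j ^ 2 := by positivity
  have a1 : 2 * (e * k) < q := by nlinarith
  have a2 : e * l * q < e * k * r := by
    have : l * q < k * r := by nlinarith
    nlinarith
  have key : ∀ A B C : ℤ, 0 < C → C * (e * k * r) ≤ A * (q * r) → C * (e * l * q) ≤ B * (q * r) →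
      C * (2 * j - μ) ≤ (ξ * C - A - B) * j ^ 2 → False := by
    intro A B C c0 h1 h2 h3
    have b1 := mul_le_mul_of_nonneg_left h1 j2.le
    have b2 := mul_le_mul_of_nonneg_left h2 j2.le
    have b3 := mul_le_mul_of_nonneg_right h3 qr.le
    have b4 := mul_lt_mul_of_pos_left x1 c0
    nlinarith
  have a3 : 2 * (e * k * r) ≤ 1 * (q * r) := by nlinarith
  rcases hμ.eq_or_lt with rfl | hμ3
  · have a4 : ξ = 1 := by
      by_contra hc
      have c1 : 2 * j ^ 2 ≤ (ξ * 2 - 1 - 1) * j ^ 2 := mul_le_mul_of_nonneg_right (by omega) j2.le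
      have c2 : 0 ≤ (j - 1) ^ 2 := sq_nonneg _
      exact key 1 1 2 two_pos a3 (by linarith) (by linarith [sq_nonneg (j - 1)])
    have a5 : e ∣ 7 := ⟨k + l - 2 * e - 10, by rw [a4, hjμ] at hξ; linear_combination -hξ⟩
    have a6 := Int.le_of_dvd (by norm_num) a5
    have a7 : e = 1 ∨ e = 7 := by interval_cases e <;> omega
    subst a4
    rcases a7 with rfl | rfl
    · obtain rfl : j = 3 := by omega
      have : 19 * k ≤ 5 * q := by nlinarith
      exact key 5 5 19 (by norm_num) (by nlinarith) (by nlinarith) (by norm_num)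
    · obtain rfl : j = 9 := by omega
      have : 13 ≤ k := by omega
      have : 243 * (7 * k) ≤ 91 * q := by nlinarith
      exact key 91 91 243 (by norm_num) (by nlinarith) (by nlinarith) (by norm_num)
  · have a4 : 5 ≤ j := by
      obtain ⟨t, rfl⟩ := oj
      omega
    have a5 : 5 * q < 2 * r := by
      by_contra hc
      have c1 : 3 * (q * r) ≤ μ * (q * r) := mul_le_mul_of_nonneg_right (by omega) qr.le
      have c2 : 0 ≤ (r - q) * (5 * q - 2 * r) := mul_nonneg (by omega) (by omega)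
      have c3 : 0 ≤ q * (5 * q - 2 * r) := mul_nonneg q0.le (by omega)
      have c4 : 0 < q * q := mul_pos q0 q0
      linarith
    have a6 : 12 * (e * l * q) ≤ 1 * (q * r) := by
      have b1 : 12 * (e * l) * r ≤ r * r := by
        have c1 : e * (l * r) ≤ e * (k * q) := mul_le_mul_of_nonneg_left lq.le he.le
        have c2 : 2 * (e * k) * q ≤ q * q := mul_le_mul_of_nonneg_right a1.le q0.le
        have c3 : (5 * q) * (5 * q) ≤ (2 * r) * (2 * r) := mul_self_le_mul_self (by omega) a5.le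
        have c4 : 0 < q * q := mul_pos q0 q0
        linarith
      have b2 : 12 * (e * l) ≤ r := le_of_mul_le_mul_right b1 r0
      have b3 := mul_le_mul_of_nonneg_right b2 q0.le
      linarith
    have c1 : 5 * j ^ 2 ≤ (ξ * 12 - 6 - 1) * j ^ 2 := mul_le_mul_of_nonneg_right (by omega) j2.le
    have c2 : 0 ≤ j * (j - 5) := mul_nonneg (by omega) (by omega)
    exact key 6 1 12 (by norm_num) (by linarith) a6 (by linarith)

end Pool.Agent.Lib.MP_148e9f_nt
end

-- part Pool.Agent.Lib.MP_148e9f_nt.Low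
section

/-!
The second case of the analysis.
-/

set_option autoImplicit false

namespace Pool.Agent.Lib.MP_148e9f_nt

theorem bounds {k l r e : ℤ} (hk : 1500 ≤ k) (hl : 0 < l) (hr : 2 * k - 3 < r)
    (ee : e ^ 2 < k * l) (hn : l * r * (r + 1) = 2 * k * (k - 1) * (2 * k - 3))
    (b1 : 57 * l ≤ k) (b2 : 1000 * l ^ 2 ≤ 438 * k) :
    15 * e ≤ 2 * k - 3 ∧ 50 * (e * l) ≤ 11 * r := by
  have r0 : 0 < r := by omega
  constructor
  · by_contra hc
    nlinarith
  · by_contra hc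
    have c1 : (11 * r) ^ 2 ≤ (50 * (e * l)) ^ 2 := pow_le_pow_left₀ (by omega) (by omega) 2
    have c2 : e ^ 2 * l ^ 2 ≤ k * l * l ^ 2 := mul_le_mul_of_nonneg_right ee.le (by positivity)
    have c3 : 121 * (l * r ^ 2) ≤ 2500 * (k * (l ^ 2 * l ^ 2)) := by nlinarith
    have c4 : (1000 * l ^ 2) * (1000 * l ^ 2) ≤ (438 * k) * (438 * k) :=
      mul_self_le_mul_self (by positivity) b2
    have c5 : k * ((1000 * l ^ 2) * (1000 * l ^ 2)) ≤ k * ((438 * k) * (438 * k)) :=
      mul_le_mul_of_nonneg_left c4 (by omega)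
    have c6 : 999 * (l * r * (r + 1)) ≤ 1000 * (l * r ^ 2) := by
      have : 0 ≤ l * r * (r - 999) := mul_nonneg (by positivity) (by omega)
      nlinarith
    have c7 : 399 * k ^ 3 ≤ 100 * (2 * k * (k - 1) * (2 * k - 3)) := by
      have : 0 ≤ k * k * (k - 1500) := mul_nonneg (by positivity) (by omega)
      nlinarith
    have c8 : 0 < k ^ 3 := by positivity
    nlinarith

theorem boundsBig {h i j k l r e : ℤ} (hk : 1500 ≤ k) (hh : h = 2 * k - 1) (hj : 3 ≤ j) (hl : 0 < l)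
    (r0 : 0 < r) (he : 0 < e) (ej : e + 2 ≤ j) (hi : h * j ≤ i)
    (ij : i * j + 1 = 2 * (k - 1) * (k - 1)) (e4 : h * i * j + 1 = r * (i + h * j))
    (hn : l * r * (r + 1) = 2 * k * (k - 1) * (2 * k - 3)) :
    15 * e ≤ 2 * k - 3 ∧ 50 * (e * l) ≤ 11 * r := by
  have h0 : 0 < h := by omega
  have hj0 : 0 < h * j := mul_pos h0 (by omega)
  constructor
  · have c1 : h * j * j ≤ i * j := mul_le_mul_of_nonneg_right hi (by omega)
    have c2 : j * j < k := by
      by_contra hc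
      have : h * k ≤ h * (j * j) := mul_le_mul_of_nonneg_left (by omega) h0.le
      rw [hh] at this c1
      linarith
    by_contra hc
    nlinarith
  · have c1 : h * j ≤ 2 * r := by
      by_contra hc
      have d1 : r * (i + h * j) ≤ r * (2 * i) := mul_le_mul_of_nonneg_left (by omega) r0.le
      have d2 : 2 * r * i ≤ h * j * i := mul_le_mul_of_nonneg_right (by omega) (by omega)
      linarith
    have c2 : (h * j) ^ 3 ≤ (2 * r) ^ 3 := pow_le_pow_left₀ hj0.le c1 3
    have c3 : 2 * (l * r ^ 2) ≤ h ^ 3 := by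
      have : 0 < l * r := mul_pos hl r0
      rw [hh]
      nlinarith
    have c4 : 200 * e ≤ 11 * j ^ 3 := by
      have : 0 ≤ (j - 3) * (j ^ 2 + 3 * j - 10) := mul_nonneg (by omega) (by nlinarith)
      linarith
    have c5 : h ^ 3 * (200 * e) ≤ h ^ 3 * (11 * j ^ 3) :=
      mul_le_mul_of_nonneg_left c4 (by positivity)
    have c6 : e * (2 * (l * r ^ 2)) ≤ e * h ^ 3 := mul_le_mul_of_nonneg_left c3 he.le
    exact le_of_mul_le_mul_right (show 50 * (e * l) * r ^ 2 ≤ 11 * r * r ^ 2 by linarith)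
      (by positivity)

/-- The first pair is the second member of its chain, the second pair lies far in its chain. -/
theorem caseLow {j k l r e μ ξ : ℤ} (hk : 1500 ≤ k) (hj : 3 ≤ j) (oj : Odd j) (hl : 0 < l)
    (hr : 2 * k - 3 < r) (he : 0 < e) (hμ : 2 ≤ μ) (hjμ : j = e + μ)
    (hξ : ξ = μ * j ^ 2 + 2 * e - e * (k + l)) (x0 : 1 ≤ ξ)
    (x1 : ξ * j ^ 2 * (2 * k - 3) * r = j ^ 2 * e * k * r + j ^ 2 * e * l * (2 * k - 3) +
      (2 * j - μ) * (2 * k - 3) * r - (j ^ 2 - 1) * e ^ 2)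
    (t1 : 15 * e ≤ 2 * k - 3) (t2 : 50 * (e * l) ≤ 11 * r) : False := by
  obtain ⟨q, hq⟩ : ∃ q, q = 2 * k - 3 := ⟨_, rfl⟩
  have q0 : 0 < q := by omega
  have r0 : 0 < r := by omega
  have qr : 0 < q * r := mul_pos q0 r0
  have j2 : 0 < j ^ 2 := by positivity
  have e1 : (2 * ξ - e) * (j ^ 2 * (q * r)) = j ^ 2 * (3 * e * r) + j ^ 2 * (2 * e * l * q) +
      2 * (2 * j - μ) * (q * r) - 2 * (j ^ 2 - 1) * e ^ 2 := by
    rw [hq]; linear_combination 2 * x1
  rw [← hq] at t1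
  have e2 : 1 ≤ 2 * ξ - e := by
    by_contra hc
    have c1 : (2 * ξ - e) * (j ^ 2 * (q * r)) ≤ 0 :=
      mul_nonpos_of_nonpos_of_nonneg (by omega) (by positivity)
    have c2 : j ^ 2 * (2 * e ^ 2) ≤ j ^ 2 * (3 * e * r) :=
      mul_le_mul_of_nonneg_left (by nlinarith) j2.le
    have c3 : 0 < j ^ 2 * (2 * e * l * q) := by positivity
    have c4 : 0 ≤ 2 * (2 * j - μ) * (q * r) := mul_nonneg (by omega) qr.le
    nlinarith [sq_nonneg e]
  have t3 : 13 ≤ j := by
    by_contra hc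
    have c1 : j ≤ 11 := by
      obtain ⟨t, rfl⟩ := oj
      omega
    have c2 : μ * j ^ 2 ≤ 10 * 11 ^ 2 :=
      mul_le_mul (by omega) (pow_le_pow_left₀ (by omega) c1 2) j2.le (by norm_num)
    nlinarith
  have d1 : j ^ 2 * (15 * e * r) ≤ j ^ 2 * (q * r) :=
    mul_le_mul_of_nonneg_left (mul_le_mul_of_nonneg_right t1 r0.le) j2.le
  have d2 : j ^ 2 * (50 * (e * l) * q) ≤ j ^ 2 * (11 * r * q) :=
    mul_le_mul_of_nonneg_left (mul_le_mul_of_nonneg_right t2 q0.le) j2.le
  have d3 : 13 * (2 * (2 * j - μ)) * (q * r) ≤ 4 * j ^ 2 * (q * r) :=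
    mul_le_mul_of_nonneg_right (by nlinarith) qr.le
  have d4 : 1 * (j ^ 2 * (q * r)) ≤ (2 * ξ - e) * (j ^ 2 * (q * r)) :=
    mul_le_mul_of_nonneg_right e2 (by positivity)
  have d5 : 0 ≤ 2 * (j ^ 2 - 1) * e ^ 2 := mul_nonneg (by nlinarith) (by positivity)
  have d6 : 0 < j ^ 2 * (q * r) := by positivity
  nlinarith

end Pool.Agent.Lib.MP_148e9f_nt
end

-- part Pool.Agent.Lib.MP_148e9f_nt.Main
section

/-!
The key integer and the case analysis.
-/

set_option autoImplicit false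

namespace Pool.Agent.Lib.MP_148e9f_nt

theorem basic {h i j k l q r : ℤ} (hj : 3 ≤ j) (hh : 1 < h) (hi : h < i)
    (e1 : h + i * j = k * (q + 1)) (e2 : h * i * j + 1 = q * (h + i * j))
    (e3 : i + h * j = l * (r + 1)) (e4 : h * i * j + 1 = r * (i + h * j)) :
    0 < q ∧ q < h ∧ r < i ∧ q < r ∧ 0 < l ∧ j + 2 ≤ k ∧ l * r < k * q ∧ l < k ∧
      j ^ 2 < k * l ∧ k * q * (q + 1) = l * r * (r + 1) := by
  have σ0 : 0 < h + i * j := by nlinarith
  have σ1 : 0 < i + h * j := by nlinarith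
  have n0 : 0 < h * i * j := by
    have : 0 < i := by omega
    positivity
  have q0 : 0 < q := by
    by_contra hc
    have : q * (h + i * j) ≤ 0 := mul_nonpos_of_nonpos_of_nonneg (by omega) σ0.le
    omega
  have qh : q < h := by
    by_contra hc
    nlinarith
  have ri : r < i := by
    by_contra hc
    nlinarith
  have qr : q < r := by
    by_contra hc
    have : 0 < (i - h) * (j - 1) := mul_pos (by omega) (by omega)
    nlinarith
  have r0 : 0 < r := by omega
  have k0 : 0 < k := by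
    by_contra hc
    nlinarith
  have l0 : 0 < l := by
    by_contra hc
    nlinarith
  have kh : k * (q + 1) ≤ k * h := mul_le_mul_of_nonneg_left (by omega) k0.le
  have li : l * (r + 1) ≤ l * i := mul_le_mul_of_nonneg_left (by omega) l0.le
  have jk : j + 2 ≤ k := by
    by_contra hc
    have c1 : k * h ≤ (j + 1) * h := mul_le_mul_of_nonneg_right (by omega) (by omega)
    have c2 : (h + 1) * j ≤ i * j := mul_le_mul_of_nonneg_right (by omega) (by omega)
    linarith
  have nn : k * q * (q + 1) = l * r * (r + 1) := by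
    linear_combination r * e3 - q * e1 + e4 - e2
  have lr : 0 < l * r := mul_pos l0 r0
  have lq : l * r < k * q := by
    by_contra hc
    have c1 : k * q * (q + 1) ≤ l * r * (q + 1) := mul_le_mul_of_nonneg_right (by omega) (by omega)
    have c2 : l * r * (q + 1) < l * r * (r + 1) := mul_lt_mul_of_pos_left (by omega) lr
    linarith
  have lk : l < k := by
    by_contra hc
    have c1 : k * q ≤ l * q := mul_le_mul_of_nonneg_right (by omega) q0.le
    have c2 : l * q < l * r := mul_lt_mul_of_pos_left qr l0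
    linarith
  have kl : j ^ 2 < k * l := by
    have c1 : i * j < k * h := by linarith
    have c2 : h * j < l * i := by linarith
    have c3 := mul_lt_mul'' c1 c2 (mul_nonneg (by omega) (by omega))
      (mul_nonneg (by omega) (by omega))
    have c4 : 0 < h * i := mul_pos (by omega) (by omega)
    exact lt_of_mul_lt_mul_right (show j ^ 2 * (h * i) < k * l * (h * i) by linarith) c4.le
  exact ⟨q0, qh, ri, qr, l0, jk, lq, lk, kl, nn⟩

theorem keyInt {h i j k l q r : ℤ} (hj : 3 ≤ j) (hh : 1 < h) (hi : h < i)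
    (e1 : h + i * j = k * (q + 1)) (e2 : h * i * j + 1 = q * (h + i * j))
    (e3 : i + h * j = l * (r + 1)) (e4 : h * i * j + 1 = r * (i + h * j)) :
    ∃ e μ ξ : ℤ, 0 < e ∧ 2 ≤ μ ∧ j = e + μ ∧ ξ = μ * j ^ 2 + 2 * e - e * (k + l) ∧ 1 ≤ ξ ∧
      ξ * j ^ 2 * q * r = j ^ 2 * e * k * r + j ^ 2 * e * l * q + (2 * j - μ) * q * r -
        (j ^ 2 - 1) * e ^ 2 ∧ μ * q * r < q ^ 2 + r ^ 2 := by
  obtain ⟨q0, qh, ri, qr, l0, jk, -⟩ := basic hj hh hi e1 e2 e3 e4
  have σ1 : 0 < i + h * j := by nlinarith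
  have r0 : 0 < r := by omega
  have J0 : 0 < j ^ 2 - 1 := by nlinarith
  obtain ⟨e, he⟩ : h ∣ j * q - r :=
    (show IsCoprime h (i + h * j) from ⟨-(i * j), r, by linear_combination -e4⟩).dvd_of_dvd_mul_left
      ⟨(j ^ 2 - 1) * q, by linear_combination e4 - e2⟩
  have s1 : e * (i + h * j) = (j ^ 2 - 1) * q :=
    mul_left_cancel₀ (show h ≠ 0 by omega) (by linear_combination -(i + h * j) * he + e4 - e2)
  have s2 : e * (h + i * j) = (j ^ 2 - 1) * r := by linear_combination j * s1 + (j ^ 2 - 1) * he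
  have s3 : e * i = j * r - q := mul_left_cancel₀ J0.ne' (by linear_combination j * s2 - s1)
  have e0 : 0 < e := by
    by_contra hc
    have c1 : e * (i + h * j) ≤ 0 := mul_nonpos_of_nonpos_of_nonneg (by omega) σ1.le
    have c2 : 0 < (j ^ 2 - 1) * q := mul_pos J0 q0
    omega
  have star : j * (j * q - r) * (j * r - q) + e ^ 2 = e * (j ^ 2 - 1) * q * r := by
    rw [he, ← s3]; linear_combination e ^ 2 * e2 + e * q * s2
  have ej : e < j := by
    by_contra hc
    have c1 : j * (i + h * j) ≤ e * (i + h * j) := mul_le_mul_of_nonneg_right (by omega) σ1.le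
    have c2 : j ^ 2 * q ≤ j ^ 2 * h := mul_le_mul_of_nonneg_left qh.le (by positivity)
    have c3 : 0 < j * i := mul_pos (by omega) (by omega)
    linarith
  obtain ⟨μ, hμ⟩ : ∃ μ, j = e + μ := ⟨j - e, by ring⟩
  have star' : j ^ 2 * (q ^ 2 + r ^ 2) = q * r * (2 * j + μ * (j ^ 2 - 1)) + e ^ 2 := by
    have : μ = j - e := by omega
    rw [this]; linear_combination -star
  have qr0 : 0 < q * r := mul_pos q0 r0
  have μ2 : 2 ≤ μ := by
    by_contra hc
    obtain rfl : μ = 1 := by omega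
    obtain rfl : e = j - 1 := by omega
    have c1 : 1 ≤ (r - q) ^ 2 := one_le_pow₀ (by omega)
    have c2 : j ^ 2 * 1 ≤ j ^ 2 * (r - q) ^ 2 := mul_le_mul_of_nonneg_left c1 (by positivity)
    have c3 : 0 ≤ q * r * (j - 1) ^ 2 := by positivity
    linarith
  obtain ⟨ξ, hξ⟩ : ∃ ξ, ξ = μ * j ^ 2 + 2 * e - e * (k + l) := ⟨_, rfl⟩
  have x1 : ξ * j ^ 2 * q * r = j ^ 2 * e * k * r + j ^ 2 * e * l * q + (2 * j - μ) * q * r -
      (j ^ 2 - 1) * e ^ 2 := by
    have c1 : e * k * (q + 1) = (j ^ 2 - 1) * r := by linear_combination s2 - e * e1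
    have c2 : e * l * (r + 1) = (j ^ 2 - 1) * q := by linear_combination s1 - e * e3
    have : e = j - μ := by omega
    rw [hξ]
    linear_combination -(j ^ 2 * r) * c1 - (j ^ 2 * q) * c2 - (j ^ 2 - 1) * star' +
      2 * j ^ 2 * q * r * this
  have x0 : 1 ≤ ξ := by
    by_contra hc
    have c1 : ξ * (j ^ 2 * q * r) ≤ 0 := mul_nonpos_of_nonpos_of_nonneg (by omega) (by positivity)
    have c0 : k * 1 ≤ k * r := mul_le_mul_of_nonneg_left (by omega) (by omega)
    have c2 : j ^ 2 * e * e ≤ j ^ 2 * e * (k * r) :=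
      mul_le_mul_of_nonneg_left (by linarith) (by positivity)
    have c3 : 0 < j ^ 2 * e * l * q := by positivity
    have c4 : 0 ≤ (2 * j - μ) * (q * r) := mul_nonneg (by omega) qr0.le
    linarith [sq_nonneg e]
  refine ⟨e, μ, ξ, e0, μ2, hμ, hξ, x0, x1, ?_⟩
  have a : j ^ 2 * (μ * q * r) < j ^ 2 * (q ^ 2 + r ^ 2) := by
    have : 0 < q * r * (2 * j - μ) := mul_pos qr0 (by omega)
    linarith [sq_nonneg e]
  exact lt_of_mul_lt_mul_left a (by positivity)

theorem farChain {i j k l r : ℤ} (hj : 3 ≤ j) (hk : 1500 ≤ k) (hl : 25 < l) (jk : j + 2 ≤ k)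
    (oi : Odd i) (or' : Odd r) (ri : r < i) (qr : 2 * k - 3 < r) (lk : l < k)
    (ihj : i < (2 * k - 1) * j)
    (ij : i * j + 1 = 2 * (k - 1) * (k - 1)) (e3 : i + (2 * k - 1) * j = l * (r + 1))
    (e4 : (2 * k - 1) * i * j + 1 = r * (i + (2 * k - 1) * j))
    (nn : l * r * (r + 1) = 2 * k * (k - 1) * (2 * k - 3)) :
    57 * l ≤ k ∧ 1000 * l ^ 2 ≤ 438 * k := by
  have k0 : 0 < k := by omega
  have l0 : 0 < l := by omega
  have r0 : 0 < r := by omega
  obtain ⟨x', hx'⟩ : ∃ x, i - r = 2 * x := (oi.sub_odd or').two_dvd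
  obtain ⟨z, hz⟩ : ∃ y, r + 1 = 2 * y := (or'.add_one).two_dvd
  have p2 : (i - r) * ((2 * k - 1) * j - r) = r ^ 2 - 1 := by linear_combination e4
  have xz : x' < z := by
    by_contra hc
    nlinarith
  have b : (2 * k - 1) * j - r = 2 * ((l - 2) * z + 1 - x') := by
    linear_combination e3 - hx' + (l - 2) * hz
  obtain ⟨-, d1, d2⟩ := chain (k := l) (show 1 ≤ x' by omega) xz (by
    have a : r = 2 * z - 1 := by omega
    rw [b, hx', a] at p2
    linarith)
  rcases d2 with d | d | d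
  · omega
  · obtain ⟨rfl, rfl⟩ := d
    have a1 : r = 2 * ((l - 1) * (l - 2)) - 1 := by omega
    have a2 : i = 2 * (l - 1) ^ 2 - 1 := by linear_combination hx' + a1
    exact (case23 (X := k - 1) (Y := l - 1) (j := j) (by omega) (by omega) (by omega) (by omega)
      (by rw [← a2]; linear_combination -ij) (by linear_combination b + a1)).elim
  · have a1 : 2 * ((l - 3) * (l - 2) ^ 2) ≤ r := by nlinarith
    have a2 : 753 * l ^ 3 ≤ 1000 * ((l - 3) * (l - 2) ^ 2) := by
      have : 0 ≤ l * l * (l - 26) := mul_nonneg (by positivity) (by omega)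
      nlinarith
    have a3 : (1506 * l ^ 3) * (1506 * l ^ 3) ≤ (1000 * r) * (1000 * r) :=
      mul_self_le_mul_self (by positivity) (by linarith)
    have a4 : l * ((1506 * l ^ 3) * (1506 * l ^ 3)) ≤ l * ((1000 * r) * (1000 * r)) :=
      mul_le_mul_of_nonneg_left a3 l0.le
    have a5 : l * r * (r + 1) ≤ 4 * k ^ 3 := by nlinarith
    have a6 : 567 * l ^ 7 ≤ 1000 * k ^ 3 := by
      have : 0 < l * r := mul_pos l0 r0
      have : 0 < l ^ 7 := by positivity
      nlinarith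
    refine ⟨?_, ?_⟩
    · by_contra hc
      have c1 : k ^ 3 ≤ (57 * l) ^ 3 := pow_le_pow_left₀ k0.le (by omega) 3
      have c2 : 26 ^ 4 ≤ l ^ 4 := pow_le_pow_left₀ (by norm_num) (by omega) 4
      have c3 : 26 ^ 4 * l ^ 3 ≤ l ^ 4 * l ^ 3 := mul_le_mul_of_nonneg_right c2 (by positivity)
      have c4 : 0 < l ^ 3 := by positivity
      nlinarith
    · by_contra hc
      have c1 : (438 * k) ^ 3 ≤ (1000 * l ^ 2) ^ 3 := pow_le_pow_left₀ (by omega) (by omega) 3
      have c3 : 26 * l ^ 6 ≤ l * l ^ 6 := mul_le_mul_of_nonneg_right (by omega) (by positivity)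
      have c4 : 0 < l ^ 6 := by positivity
      nlinarith

theorem core {h i j k l q r : ℤ} (hj : 3 ≤ j) (oj : Odd j) (hh : 1 < h) (hi : h < i)
    (oh : Odd h) (oi : Odd i) (oq : Odd q) (or' : Odd r)
    (e1 : h + i * j = k * (q + 1)) (e2 : h * i * j + 1 = q * (h + i * j))
    (e3 : i + h * j = l * (r + 1)) (e4 : h * i * j + 1 = r * (i + h * j)) : False := by
  obtain ⟨q0, qh, ri, qr, l0, jk, lq, lk, kl, nn⟩ := basic hj hh hi e1 e2 e3 e4
  obtain ⟨e, μ, ξ, e0, μ2, hμ, hξ, x0, x1, st⟩ := keyInt hj hh hi e1 e2 e3 e4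
  have r0 : 0 < r := by omega
  have k0 : 0 < k := by omega
  have J0 : 0 < j ^ 2 - 1 := by nlinarith
  obtain ⟨x, hx⟩ : ∃ x, h - q = 2 * x := (oh.sub_odd oq).two_dvd
  obtain ⟨y, hy⟩ : ∃ y, q + 1 = 2 * y := (oq.add_one).two_dvd
  have p1 : (h - q) * (i * j - q) = q ^ 2 - 1 := by linear_combination e2
  have xy : x < y := by
    by_contra hc
    have c0 : i * 1 ≤ i * j := mul_le_mul_of_nonneg_left (by omega) (by omega)
    have c1 : (q + 1) * (q + 1) ≤ (h - q) * (i * j - q) :=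
      mul_le_mul (by omega) (by omega) (by omega) (by omega)
    linarith
  obtain ⟨-, c1, c2⟩ := chain (k := k) (show 1 ≤ x by omega) xy (by
    have a : q = 2 * y - 1 := by omega
    have b : i * j - q = 2 * ((k - 2) * y + 1 - x) := by
      linear_combination e1 - hx + (k - 2) * hy
    rw [b, hx, a] at p1
    linarith)
  by_cases x1' : x = 1
  swap
  · have c3 : k - 1 ≤ x := by
      rcases c2 with c | c | c
      · exact absurd c.1 x1'
      · exact c.1.ge
      · nlinarith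
    have c4 : (k - 3) * (k - 1) ≤ (k - 3) * x := mul_le_mul_of_nonneg_left c3 (by omega)
    have c5 : 0 < (j ^ 2 - 1) * e ^ 2 := by positivity
    exact caseHigh hj oj jk l0 lk (by linarith) qr e0 μ2 hμ hξ x0 (by linarith) st lq
  have y1 : y = k - 1 := by
    rcases c2 with c | c | c
    · exact c.2
    · omega
    · nlinarith
  obtain rfl : q = 2 * k - 3 := by omega
  obtain rfl : h = 2 * k - 1 := by omega
  have ij : i * j + 1 = 2 * (k - 1) * (k - 1) := by linear_combination e1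
  rcases lt_or_ge k 1500 with hk | hk
  · obtain ⟨t, rfl⟩ := oj
    obtain ⟨X, hX⟩ : ∃ X : ℕ, k = X + 1 := ⟨(k - 1).toNat, by omega⟩
    obtain ⟨T, hT⟩ : ∃ T : ℕ, t = T + 1 := ⟨(t - 1).toNat, by omega⟩
    lift i to ℕ using by omega
    lift r to ℕ using by omega
    lift l to ℕ using by omega
    subst hX hT
    refine small (x := X) (t := T) (i := i) (r := r) (l := l) (by omega) (by omega) ?_ ?_ ?_
    · zify; linear_combination ij
    · zify [show 1 ≤ 2 * X by omega]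
      linear_combination e2 - e4 + (2 * (X : ℤ) - 1) * e1
    · zify; linear_combination e3
  have nn' : l * r * (r + 1) = 2 * k * (k - 1) * (2 * k - 3) := by linear_combination -nn
  have ee : e ^ 2 < k * l := lt_of_le_of_lt (pow_le_pow_left₀ e0.le (by omega) 2) kl
  suffices t : 15 * e ≤ 2 * k - 3 ∧ 50 * (e * l) ≤ 11 * r from
    caseLow hk hj oj l0 qr e0 μ2 hμ hξ x0 x1 t.1 t.2
  rcases le_or_gt l 25 with hl | hl
  · have : l ^ 2 ≤ 25 ^ 2 := pow_le_pow_left₀ l0.le hl 2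
    exact bounds hk l0 qr ee nn' (by omega) (by linarith)
  rcases lt_or_ge i ((2 * k - 1) * j) with ihj | ihj
  · obtain ⟨f1, f2⟩ := farChain hj hk hl jk oi or' ri qr lk ihj ij e3 e4 nn'
    exact bounds hk l0 qr ee nn' f1 f2
  · exact boundsBig hk rfl hj l0 r0 e0 (by omega) ihj ij e4 nn'

end Pool.Agent.Lib.MP_148e9f_nt
end

-- part Pool.Agent.Lib.MP_148e9f_nt.Pair
section

/-!
From pairs of components to the equations used in `core`.
-/

set_option autoImplicit false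

namespace Pool.Agent.Lib.MP_148e9f_nt

theorem pair {a b : ℤ} (ha : 1 < a) (hb : 1 < b) (oa : Odd a) (ob : Odd b)
    (h : 2 * (a + 1) * (b + 1) ∣ (a + b) ^ 2 + (a * b + 1) ^ 2) :
    ∃ k q : ℤ, Odd q ∧ a + b = k * (q + 1) ∧ a * b + 1 = q * (a + b) := by
  obtain ⟨u, hu⟩ : ∃ u, a + 1 = 2 * u := oa.add_one.two_dvd
  obtain ⟨v, hv⟩ : ∃ v, b + 1 = 2 * v := ob.add_one.two_dvd
  obtain rfl : a = 2 * u - 1 := by omega
  obtain rfl : b = 2 * v - 1 := by omega
  obtain ⟨c, hc⟩ := h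
  obtain ⟨k, hk⟩ : ∃ k, (u + v - 1) ^ 2 = k * u * v :=
    ⟨c + 2 * (u + v - 1) - 2 * u * v, by linarith⟩
  obtain ⟨R, hR⟩ := descent k (u + v).toNat u v (by omega) (by omega) (by omega) hk
  have k0 : k ≠ 0 := by
    rintro rfl
    omega
  have h1 : u * v = k * R ^ 2 :=
    mul_left_cancel₀ k0 (by rw [hR] at hk; linear_combination -hk)
  exact ⟨k, 2 * R - 1, ⟨R - 1, by ring⟩, by linear_combination 2 * hR,
    by linear_combination 4 * h1 - 4 * R * hR⟩

/-- `a` and `b` form a pair of components. -/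
def Comp (a b : ℤ) : Prop :=
  1 < a ∧ 1 < b ∧ Odd a ∧ Odd b ∧ 2 * (a + 1) * (b + 1) ∣ (a + b) ^ 2 + (a * b + 1) ^ 2

theorem Comp.symm {a b : ℤ} (h : Comp a b) : Comp b a :=
  ⟨h.2.1, h.1, h.2.2.2.1, h.2.2.1, by
    convert h.2.2.2.2 using 1 <;> ring⟩

theorem Comp.coprime {a b : ℤ} (h : Comp a b) : IsCoprime a b := by
  obtain ⟨k, q, -, -, e⟩ := pair h.1 h.2.1 h.2.2.1 h.2.2.2.1 h.2.2.2.2
  exact ⟨q - b, q, by linear_combination -e⟩

theorem noTwo {h i j : ℤ} (hj : 1 < j) (hi : h < i) (h1 : Comp h (i * j)) (h2 : Comp i (h * j)) :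
    False := by
  obtain ⟨k, q, oq, e1, e2⟩ := pair h1.1 h1.2.1 h1.2.2.1 h1.2.2.2.1 h1.2.2.2.2
  obtain ⟨l, r, or', e3, e4⟩ := pair h2.1 h2.2.1 h2.2.2.1 h2.2.2.2.1 h2.2.2.2.2
  have oj : Odd j := (Int.odd_mul.1 h1.2.2.2.1).2
  refine core (by obtain ⟨t, rfl⟩ := oj; omega) oj h1.1 hi h1.2.2.1 h2.2.2.1 oq or' e1
    (by linear_combination e2) e3 (by linear_combination e4)

theorem of_dvd {a b c d : ℤ} (h1 : Comp a b) (h2 : Comp c d) (e : a * b = c * d) (h : a ∣ c) :
    (a = c ∧ b = d) ∨ (a = d ∧ b = c) := by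
  obtain ⟨j, rfl⟩ := h
  have a0 : 0 < a := by linarith [h1.1]
  obtain rfl : b = d * j := mul_left_cancel₀ a0.ne' (by linear_combination e)
  have j0 : 0 < j := (mul_pos_iff_of_pos_left a0).1 (by linarith [h2.1])
  rcases (show 1 ≤ j by omega).eq_or_lt with rfl | hj
  · exact Or.inl ⟨by ring, by ring⟩
  rcases lt_trichotomy a d with hd | rfl | hd
  · exact (noTwo hj hd h1 h2.symm).elim
  · exact Or.inr ⟨rfl, rfl⟩
  · exact (noTwo hj hd h2.symm h1).elim

end Pool.Agent.Lib.MP_148e9f_nt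
end
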