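import Mathlib
import Pool.Agent.Lib.MP_148e9f_nt.Pair

set_option autoImplicit false

namespace Pool.Agent.Lib.MP_148e9f_nt

theorem comp {a b : ℕ} (hn : Odd (a * b)) (ha : 1 < a) (hb : 1 < b)
    (h : 2 * (a + 1) * (b + 1) ∣ (a + b) ^ 2 + (a * b + 1) ^ 2) : Comp a b :=
  ⟨by exact_mod_cast ha, by exact_mod_cast hb, by exact_mod_cast (Nat.odd_mul.1 hn).1,
    by exact_mod_cast (Nat.odd_mul.1 hn).2, by exact_mod_cast h⟩

theorem ofDvd {a b c d : ℕ} (h1 : Comp a b) (h2 : Comp c d) (e : a * b = c * d) (h : a ∣ c) :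
    (a = c ∧ b = d) ∨ (a = d ∧ b = c) := by
  exact_mod_cast of_dvd h1 h2 (by exact_mod_cast e) (by exact_mod_cast h)

/-- The decomposition into four parts. -/
theorem fourParts (n a b c d : ℕ) (hn : Odd n) (ha : 1 < a) (hb : 1 < b) (hc : 1 < c) (hd : 1 < d)
    (hab : n = a * b) (hcd : n = c * d)
    (h1 : 2 * (a + 1) * (b + 1) ∣ (a + b) ^ 2 + (a * b + 1) ^ 2)
    (h2 : 2 * (c + 1) * (d + 1) ∣ (c + d) ^ 2 + (c * d + 1) ^ 2) :
    (a = c ∧ b = d) ∨ (a = d ∧ b = c) ∨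
      ∃ w x y z : ℕ, 1 < w ∧ 1 < x ∧ 1 < y ∧ 1 < z ∧
        w.Coprime x ∧ w.Coprime y ∧ w.Coprime z ∧ x.Coprime y ∧ x.Coprime z ∧ y.Coprime z ∧
        a = w * x ∧ b = y * z ∧ c = w * y ∧ d = x * z := by
  have c1 := comp (hab ▸ hn) ha hb h1
  have c2 := comp (hcd ▸ hn) hc hd h2
  have e : a * b = c * d := hab.symm.trans hcd
  have ha' : a ∣ c * d := ⟨b, e.symm⟩
  have hb' : b ∣ c * d := ⟨a, by rw [← e, mul_comm]⟩
  by_cases g1 : a.Coprime d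
  · have := ofDvd c1 c2 e (g1.dvd_of_dvd_mul_right ha')
    tauto
  by_cases g2 : a.Coprime c
  · have := ofDvd c1 c2.symm (by rw [e, mul_comm]) (g2.dvd_of_dvd_mul_left ha')
    tauto
  by_cases g3 : b.Coprime d
  · have := ofDvd c1.symm c2 (by rw [← e, mul_comm]) (g3.dvd_of_dvd_mul_right hb')
    tauto
  by_cases g4 : b.Coprime c
  · have := ofDvd c1.symm c2.symm (by rw [mul_comm, e, mul_comm]) (g4.dvd_of_dvd_mul_left hb')
    tauto
  have k1 : a.Coprime b := Nat.isCoprime_iff_coprime.1 c1.coprime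
  have k2 : c.Coprime d := Nat.isCoprime_iff_coprime.1 c2.coprime
  have gt : ∀ {u v : ℕ}, 1 < u → ¬u.Coprime v → 1 < u.gcd v := by
    intro u v hu h
    have := Nat.gcd_pos_of_pos_left v (show 0 < u by omega)
    have : u.gcd v ≠ 1 := h
    omega
  have co : ∀ {u v s t : ℕ}, u.Coprime v → s ∣ u → t ∣ v → s.Coprime t := fun h hs ht =>
    (h.coprime_dvd_left hs).coprime_dvd_right ht
  have l := Nat.gcd_dvd_left
  have r := Nat.gcd_dvd_right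
  refine Or.inr (Or.inr ⟨a.gcd c, a.gcd d, b.gcd c, b.gcd d, gt ha g2, gt ha g1, gt hb g4, gt hb g3,
    co k2 (r _ _) (r _ _), co k1 (l _ _) (l _ _), co k1 (l _ _) (l _ _), co k1 (l _ _) (l _ _),
    co k1 (l _ _) (l _ _), co k2 (r _ _) (r _ _), ?_, ?_, ?_, ?_⟩)
  · rw [← k2.gcd_mul, Nat.gcd_eq_left ha']
  · rw [← k2.gcd_mul, Nat.gcd_eq_left hb']
  · rw [Nat.gcd_comm a, Nat.gcd_comm b, ← k1.gcd_mul, Nat.gcd_eq_left ⟨d, e⟩]
  · rw [Nat.gcd_comm a, Nat.gcd_comm b, ← k1.gcd_mul, Nat.gcd_eq_left ⟨c, by rw [e, mul_comm]⟩]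

end Pool.Agent.Lib.MP_148e9f_nt
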